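import Pool.Agent.H12R3.VR.Stmts

/-! Project H12-VR, task TaskExp. -/

set_option autoImplicit false

open Filter Topology

namespace Pool.Agent.H545R3.VR

open H12VR

/-- the derivative of a function which vanishes on an open set vanishes there -/
theorem deriv_zero {F F' : ℝ → ℝ} {I : Set ℝ} (hI : IsOpen I) (hF : ∀ x ∈ I, F x = 0)
    (hd : ∀ x ∈ I, HasDerivAt F (F' x) x) : ∀ x ∈ I, F' x = 0 := by
  intro x hx
  have h1 : F =ᶠ[𝓝 x] fun _ => (0 : ℝ) := by
    filter_upwards [hI.mem_nhds hx] with y hy using hF y hy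
  have h2 : HasDerivAt F 0 x := (hasDerivAt_const x (0 : ℝ)).congr_of_eventuallyEq h1
  exact (hd x hx).unique h2

theorem hasDerivAt_E (κ x : ℝ) : HasDerivAt (fun y => Real.exp (κ * y)) (κ * Real.exp (κ * x)) x := by
  have h1 : HasDerivAt (fun y : ℝ => κ * y) κ x := by
    simpa using (hasDerivAt_id x).const_mul κ
  have h2 := h1.exp
  rw [mul_comm]
  exact h2

theorem indep {I : Set ℝ} (hI : IsOpen I) (hne : I.Nonempty) {κ : ℝ} (hκ : κ ≠ 0)
    {α β γ δ ε : ℝ} (h : ∀ x ∈ I, α * x + β + γ * (x * Real.exp (κ * x)) + δ * Real.exp (κ * x) +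
      ε * (Real.exp (κ * x) * Real.exp (κ * x)) = 0) :
    α = 0 ∧ β = 0 ∧ γ = 0 ∧ δ = 0 ∧ ε = 0 := by
  obtain ⟨x₀, hx₀⟩ := hne
  have hE : ∀ x : ℝ, Real.exp (κ * x) ≠ 0 := fun x => (Real.exp_pos _).ne'
  -- first derivative
  have h1 : ∀ x ∈ I, α + γ * (Real.exp (κ * x) + x * (κ * Real.exp (κ * x))) +
      δ * (κ * Real.exp (κ * x)) +
      ε * (κ * Real.exp (κ * x) * Real.exp (κ * x) + Real.exp (κ * x) * (κ * Real.exp (κ * x))) =
      0 := by
    refine deriv_zero hI h fun x hx => ?_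
    have e1 := hasDerivAt_E κ x
    have e2 : HasDerivAt (fun y : ℝ => α * y + β) α x := by
      simpa using ((hasDerivAt_id x).const_mul α).add_const β
    have e3 : HasDerivAt (fun y : ℝ => y * Real.exp (κ * y))
        (1 * Real.exp (κ * x) + x * (κ * Real.exp (κ * x))) x :=
      (hasDerivAt_id' x).mul e1
    rw [one_mul] at e3
    have e4 := e1.mul e1
    exact (((e2.add (e3.const_mul γ)).add (e1.const_mul δ)).add (e4.const_mul ε))
  -- second derivative
  have h2 : ∀ x ∈ I, γ * (κ * Real.exp (κ * x) + (κ * Real.exp (κ * x) +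
      x * (κ * (κ * Real.exp (κ * x))))) + δ * (κ * (κ * Real.exp (κ * x))) +
      ε * (4 * κ * (κ * (Real.exp (κ * x) * Real.exp (κ * x)))) = 0 := by
    refine deriv_zero hI h1 fun x hx => ?_
    have e1 := hasDerivAt_E κ x
    have e1' : HasDerivAt (fun y : ℝ => κ * Real.exp (κ * y)) (κ * (κ * Real.exp (κ * x))) x :=
      e1.const_mul κ
    have e3 : HasDerivAt (fun y : ℝ => y * (κ * Real.exp (κ * y)))
        (1 * (κ * Real.exp (κ * x)) + x * (κ * (κ * Real.exp (κ * x)))) x :=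
      (hasDerivAt_id' x).mul e1'
    rw [one_mul] at e3
    have e4 : HasDerivAt (fun y : ℝ => κ * Real.exp (κ * y) * Real.exp (κ * y) +
        Real.exp (κ * y) * (κ * Real.exp (κ * y)))
        (4 * κ * (κ * (Real.exp (κ * x) * Real.exp (κ * x)))) x := by
      refine HasDerivAt.congr_deriv ((e1'.mul e1).add (e1.mul e1')) ?_
      ring
    have e5 := (((e1.add e3).const_mul γ).const_add α)
    exact ((e5.add (e1'.const_mul δ)).add (e4.const_mul ε))
  -- divide by the exponential function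
  have h3 : ∀ x ∈ I, γ * (2 * κ + κ * κ * x) + δ * (κ * κ) +
      4 * κ * κ * ε * Real.exp (κ * x) = 0 := by
    intro x hx
    have := h2 x hx
    have h4 : Real.exp (κ * x) * (γ * (2 * κ + κ * κ * x) + δ * (κ * κ) +
      4 * κ * κ * ε * Real.exp (κ * x)) = 0 := by
      rw [← this]
      ring
    exact (mul_eq_zero.1 h4).resolve_left (hE x)
  have h4 : ∀ x ∈ I, γ * (κ * κ) + 4 * κ * κ * ε * (κ * Real.exp (κ * x)) = 0 := by
    refine deriv_zero hI h3 fun x hx => ?_
    have e1 := (hasDerivAt_E κ x).const_mul (4 * κ * κ * ε)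
    have e2 : HasDerivAt (fun y : ℝ => γ * (2 * κ + κ * κ * y) + δ * (κ * κ)) (γ * (κ * κ)) x := by
      have := ((((hasDerivAt_id x).const_mul (κ * κ)).const_add (2 * κ)).const_mul γ).add_const
        (δ * (κ * κ))
      simpa using this
    exact e2.add e1
  have h5 : ∀ x ∈ I, 4 * κ * κ * ε * (κ * (κ * Real.exp (κ * x))) = 0 := by
    refine deriv_zero hI h4 fun x hx => ?_
    have e1 := ((hasDerivAt_E κ x).const_mul κ).const_mul (4 * κ * κ * ε)
    exact e1.const_add (γ * (κ * κ))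
  have hε : ε = 0 := by
    have := h5 x₀ hx₀
    simpa [hκ, hE] using this
  have hγ : γ = 0 := by
    have := h4 x₀ hx₀
    simpa [hε, hκ] using this
  have hδ : δ = 0 := by
    have := h3 x₀ hx₀
    simpa [hε, hγ, hκ] using this
  have hα : α = 0 := by
    have := h1 x₀ hx₀
    simpa [hε, hγ, hδ] using this
  have hβ : β = 0 := by
    have := h x₀ hx₀
    simpa [hε, hγ, hδ, hα] using this
  exact ⟨hα, hβ, hγ, hδ, hε⟩

theorem univ_of_shift {I : Set ℝ} (hc : I.OrdConnected) (hne : I.Nonempty) {s : ℝ} (hs : s ≠ 0)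
    (h1 : ∀ x ∈ I, x + s ∈ I) (h2 : ∀ x ∈ I, x - s ∈ I) : I = Set.univ := by
  obtain ⟨x₀, hx₀⟩ := hne
  have h3 : ∀ n : ℕ, x₀ + n * s ∈ I := by
    intro n
    induction n with
    | zero => simpa using hx₀
    | succ n ih =>
      have := h1 _ ih
      have e : x₀ + ((n + 1 : ℕ) : ℝ) * s = x₀ + n * s + s := by push_cast; ring
      rw [e]; exact this
  have h4 : ∀ n : ℕ, x₀ - n * s ∈ I := by
    intro n
    induction n with
    | zero => simpa using hx₀
    | succ n ih =>
      have := h2 _ ih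
      have e : x₀ - ((n + 1 : ℕ) : ℝ) * s = x₀ - n * s - s := by push_cast; ring
      rw [e]; exact this
  rw [Set.eq_univ_iff_forall]
  intro t
  obtain ⟨n, hn⟩ := exists_nat_ge (|t - x₀| / |s|)
  have hs' : 0 < |s| := abs_pos.2 hs
  rw [div_le_iff₀ hs'] at hn
  have hn2 : |t - x₀| ≤ |(n : ℝ) * s| := by
    rw [abs_mul, Nat.abs_cast]; exact hn
  apply hc.uIcc_subset (h4 n) (h3 n)
  rw [Set.mem_uIcc]
  rcases le_or_gt 0 ((n : ℝ) * s) with h | h
  · rw [abs_of_nonneg h, abs_le] at hn2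
    left; constructor <;> linarith [hn2.1, hn2.2]
  · rw [abs_of_neg h, abs_le] at hn2
    right; constructor <;> linarith [hn2.1, hn2.2]

theorem taskExp : TaskExp := by
  intro f I a b κ N hI hc hne hb hκ hf hdt hdt1 haut himg
  have hE : ∀ x : ℝ, Real.exp (κ * x) ≠ 0 := fun x => (Real.exp_pos _).ne'
  have hmem : ∀ x ∈ I, ax N x (f x) ∈ I := by
    intro x hx
    rw [← himg]
    exact ⟨x, hx, rfl⟩
  -- the functional equation
  have h0 : ∀ x ∈ I, b * Real.exp (κ * (N 0 * x + N 1 * (a + b * Real.exp (κ * x)) + N 2)) -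
      (N 3 * x + N 4 * (a + b * Real.exp (κ * x)) + N 5 - a) = 0 := by
    intro x hx
    have h1 := haut x hx
    rw [hf _ (hmem x hx)] at h1
    simp only [ax, ay, hf x hx] at h1
    linarith
  have h1 : ∀ x ∈ I, b * (Real.exp (κ * (N 0 * x + N 1 * (a + b * Real.exp (κ * x)) + N 2)) *
      (κ * (N 0 + N 1 * (b * (κ * Real.exp (κ * x)))))) -
      (N 3 + N 4 * (b * (κ * Real.exp (κ * x)))) = 0 := by
    refine deriv_zero hI h0 fun x hx => ?_
    have e1 := hasDerivAt_E κ x
    have e2 : HasDerivAt (fun y : ℝ => a + b * Real.exp (κ * y)) (b * (κ * Real.exp (κ * x))) x :=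
      (e1.const_mul b).const_add a
    have e3 : HasDerivAt (fun y : ℝ => N 0 * y) (N 0) x := by
      simpa using (hasDerivAt_id x).const_mul (N 0)
    have e3' : HasDerivAt (fun y : ℝ => N 3 * y) (N 3) x := by
      simpa using (hasDerivAt_id x).const_mul (N 3)
    have e4 : HasDerivAt (fun y : ℝ => κ * (N 0 * y + N 1 * (a + b * Real.exp (κ * y)) + N 2))
        (κ * (N 0 + N 1 * (b * (κ * Real.exp (κ * x))))) x :=
      (((e3.add (e2.const_mul (N 1))).add_const (N 2)).const_mul κ)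
    have e5 := (e4.exp).const_mul b
    have e6 : HasDerivAt (fun y : ℝ => N 3 * y + N 4 * (a + b * Real.exp (κ * y)) + N 5 - a)
        (N 3 + N 4 * (b * (κ * Real.exp (κ * x)))) x :=
      (((e3'.add (e2.const_mul (N 4))).add_const (N 5)).sub_const a)
    exact e5.sub e6
  have h2 : ∀ x ∈ I, (κ * N 0 * N 3) * x + (κ * N 0 * (N 4 * a + N 5 - a) - N 3) +
      (κ * κ * N 1 * b * N 3) * (x * Real.exp (κ * x)) +
      (κ * b * (N 0 * N 4 - N 4 + κ * N 1 * (N 4 * a + N 5 - a))) * Real.exp (κ * x) +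
      (κ * κ * N 1 * N 4 * b * b) * (Real.exp (κ * x) * Real.exp (κ * x)) = 0 := by
    intro x hx
    have e1 := h0 x hx
    have e2 := h1 x hx
    have e3 : b * Real.exp (κ * (N 0 * x + N 1 * (a + b * Real.exp (κ * x)) + N 2)) =
      (N 3 * x + N 4 * (a + b * Real.exp (κ * x)) + N 5 - a) := by linarith
    rw [← mul_assoc, e3] at e2
    rw [← e2]
    ring
  obtain ⟨c1, c2, c3, c4, c5⟩ := indep hI hne hκ h2
  have hdt' : N 0 * N 4 - N 1 * N 3 ≠ 0 := hdt
  have k1 : N 0 * N 3 = 0 := by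
    have : κ * (N 0 * N 3) = 0 := by linarith [c1]
    exact (mul_eq_zero.1 this).resolve_left hκ
  have k3 : N 1 * N 3 = 0 := by
    have : (κ * κ * b) * (N 1 * N 3) = 0 := by rw [← c3]; ring
    exact (mul_eq_zero.1 this).resolve_left (by positivity)
  have k5 : N 1 * N 4 = 0 := by
    have : (κ * κ * b * b) * (N 1 * N 4) = 0 := by rw [← c5]; ring
    exact (mul_eq_zero.1 this).resolve_left (by positivity)
  have k04 : N 0 * N 4 ≠ 0 := by
    intro h
    apply hdt'
    rw [h, k3, sub_zero]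
  have n0 : N 0 ≠ 0 := left_ne_zero_of_mul k04
  have n4 : N 4 ≠ 0 := right_ne_zero_of_mul k04
  have n1 : N 1 = 0 := (mul_eq_zero.1 k5).resolve_right n4
  have n3 : N 3 = 0 := (mul_eq_zero.1 k1).resolve_left n0
  have hg : N 4 * a + N 5 - a = 0 := by
    have : κ * N 0 * (N 4 * a + N 5 - a) = 0 := by rw [n3, sub_zero] at c2; exact c2
    exact (mul_eq_zero.1 this).resolve_left (mul_ne_zero hκ n0)
  have n01 : N 0 = 1 := by
    have h5 : (κ * b) * (N 4 * (N 0 - 1)) = 0 := by
      rw [hg] at c4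
      rw [← c4]; ring
    have h6 := (mul_eq_zero.1 h5).resolve_left (mul_ne_zero hκ hb)
    have h7 := (mul_eq_zero.1 h6).resolve_left n4
    linarith
  have hax : ∀ x, ax N x (f x) = x + N 2 := by
    intro x
    simp only [ax, n01, n1]
    ring
  by_cases hN2 : N 2 = 0
  · exfalso
    obtain ⟨x, hx⟩ := hne
    have h5 := h0 x hx
    have h6 : b * Real.exp (κ * x) * (1 - N 4) = 0 := by
      have e : κ * (N 0 * x + N 1 * (a + b * Real.exp (κ * x)) + N 2) = κ * x := by
        rw [n01, n1, hN2]; ring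
      rw [e, n3] at h5
      have : N 5 = a - N 4 * a := by linarith
      rw [this] at h5
      rw [← h5]; ring
    have h7 := (mul_eq_zero.1 h6).resolve_left (mul_ne_zero hb (hE x))
    have h8 : N 4 = 1 := by linarith
    apply hdt1
    simp only [dt, n01, n1, h8]
    norm_num
  · refine univ_of_shift hc hne hN2 ?_ ?_
    · intro x hx
      rw [← hax x]
      exact hmem x hx
    · intro x hx
      rw [← himg] at hx
      obtain ⟨y, hy, hyx⟩ := hx
      have : y + N 2 = x := by rw [← hax y]; exact hyx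
      have h9 : x - N 2 = y := by linarith
      rw [h9]
      exact hy

end Pool.Agent.H545R3.VR
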